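import Pool.Agent.H664.EX.Stm2

/-! Project EX (helper664): job MAINA (helper287). -/

set_option autoImplicit false

namespace Pool.Agent.H287.EX

open MvPolynomial Pool.Agent.W996.EC Pool.Agent.Q72.EG Pool.Agent.H664.FH
  Pool.Agent.H664.EX

section

variable {E : Type} [Field E] [Algebra ℂ E]

lemma alg_mono {F₁ F₂ : IntermediateField ℂ E} (h : F₁ ≤ F₂) {a : E} (ha : IsAlgebraic F₁ a) :
    IsAlgebraic F₂ a :=
  IsAlgebraic.ringHom_of_comp_eq (IntermediateField.inclusion h) (RingHom.id E) ha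
    (IntermediateField.inclusion h).injective (by ext; rfl)

lemma al_map {K : Type} [Field K] [Algebra ℂ K] (φ : K →ₐ[ℂ] E) (s : Set K) (f : K) :
    Al (φ '' s) (φ f) ↔ Al s f := by
  have e : IntermediateField.adjoin ℂ (φ '' s) = (IntermediateField.adjoin ℂ s).map φ :=
    (IntermediateField.adjoin_map ℂ s φ).symm
  unfold Al
  rw [e]
  exact isAlgebraic_ringHom_iff_of_comp_eq
    (IntermediateField.equivMap (IntermediateField.adjoin ℂ s) φ) φ φ.injective (by ext; rfl)

lemma pt_comp {σ τ : Type} (ρ : τ → σ) {ξ : σ → E} {p : σ → ℂ} (h : p ∈ Pt ξ) :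
    p ∘ ρ ∈ Pt (ξ ∘ ρ) := by
  intro g hg
  have h1 := h (rename ρ g) (by rw [aeval_rename]; exact hg)
  rwa [eval_rename] at h1

lemma pt_val {K : Type} [Field K] [Algebra ℂ K] (φ : K →ₐ[ℂ] E) {σ : Type} (ξ : σ → K) :
    Pt (φ ∘ ξ) = Pt ξ := by
  have key : ∀ g : MvPolynomial σ ℂ, aeval (φ ∘ ξ) g = 0 ↔ aeval ξ g = 0 := by
    intro g
    have e : aeval (φ ∘ ξ) g = φ (aeval ξ g) := by
      rw [comp_aeval_apply]
      rfl
    rw [e, map_eq_zero_iff φ φ.injective]
  ext p
  constructor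
  · intro h g hg
    exact h g ((key g).2 hg)
  · intro h g hg
    exact h g ((key g).1 hg)

lemma inj2 : Function.Injective (![0, 1] : Fin 2 → Fin 3) := by decide

lemma two_vars {P : MvPolynomial (Fin 3) ℂ} (h2 : ∃ m ∈ P.support, m 2 ≠ 0)
    {g : MvPolynomial (Fin 2) ℂ} (h : P ∣ rename ![0, 1] g) : g = 0 := by
  by_contra hg
  obtain ⟨q, hq⟩ := h
  have h3 : rename (![0, 1] : Fin 2 → Fin 3) g ≠ 0 := by
    rw [Ne, map_eq_zero_iff _ (rename_injective _ inj2)]
    exact hg
  have hP : P ≠ 0 := by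
    rintro rfl
    rw [zero_mul] at hq
    exact h3 hq
  have hq0 : q ≠ 0 := by
    rintro rfl
    rw [mul_zero] at hq
    exact h3 hq
  have h4 := degreeOf_mul_eq (n := (2 : Fin 3)) hP hq0
  rw [← hq] at h4
  have h5 : degreeOf 2 (rename (![0, 1] : Fin 2 → Fin 3) g) ≤ 0 := by
    rw [degreeOf_le_iff]
    intro m hm
    rw [support_rename_of_injective inj2, Finset.mem_image] at hm
    obtain ⟨m', -, rfl⟩ := hm
    rw [Finsupp.mapDomain_notin_range]
    intro hr
    obtain ⟨i, hi⟩ := hr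
    fin_cases i <;> simp at hi
  have h6 : degreeOf 2 P ≤ 0 := by omega
  rw [degreeOf_le_iff] at h6
  obtain ⟨m, hm, hm2⟩ := h2
  exact hm2 (Nat.le_zero.1 (h6 m hm))

lemma root_two {P : MvPolynomial (Fin 3) ℂ} {d J : ℕ} {γ : ℂ} (h : Root P d J γ) :
    ∃ m ∈ P.support, m 2 ≠ 0 := by
  by_contra hcon
  push Not at hcon
  obtain ⟨m₀, hm₀, h1, h2⟩ := h.ex
  have h3 := h.root
  unfold leadAt at h3
  have h4 : (P.support.filter fun m => m 1 + m 2 = d ∧ m 0 = J) = {m₀} := by
    ext m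
    rw [Finset.mem_filter, Finset.mem_singleton]
    constructor
    · rintro ⟨hm, h5, h6⟩
      have h7 := hcon m hm
      have h8 := hcon m₀ hm₀
      ext i
      fin_cases i
      · show m 0 = m₀ 0
        rw [h6, h2]
      · show m 1 = m₀ 1
        omega
      · show m 2 = m₀ 2
        rw [h7, h8]
    · rintro rfl
      exact ⟨hm₀, h1, h2⟩
  rw [h4, Finset.sum_singleton, hcon m₀ hm₀, pow_zero, mul_one] at h3
  exact (mem_support_iff.1 hm₀) h3

lemma ind2 (G : Cv 3 E) (h2 : ∃ m ∈ G.P.support, m 2 ≠ 0) :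
    AlgebraicIndependent ℂ ![G.x 0, G.x 1] := by
  rw [algebraicIndependent_iff]
  intro g hg
  apply two_vars h2
  rw [← G.hx, aeval_rename]
  have e : G.x ∘ (![0, 1] : Fin 2 → Fin 3) = ![G.x 0, G.x 1] := by
    ext i
    fin_cases i <;> rfl
  rw [e, hg]

lemma x2_alg (G : Cv 3 E) (h2 : ∃ m ∈ G.P.support, m 2 ≠ 0) : Al {G.x 0, G.x 1} (G.x 2) := by
  by_contra hcon
  have hi := ind2 G h2
  have e : Set.range ![G.x 0, G.x 1] = {G.x 0, G.x 1} := by
    rw [Matrix.range_cons, Matrix.range_cons, Matrix.range_empty, Set.union_empty]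
    rfl
  have h3 : Transcendental (Algebra.adjoin ℂ (Set.range ![G.x 0, G.x 1])) (G.x 2) := by
    intro h
    apply hcon
    rw [e] at h
    exact IsAlgebraic.ringHom_of_comp_eq
      (Subalgebra.inclusion (IntermediateField.algebra_adjoin_le_adjoin ℂ {G.x 0, G.x 1}))
      (RingHom.id E) h (Subalgebra.inclusion_injective _) (by ext; rfl)
  have h4 := (hi.option_iff_transcendental (G.x 2)).2 h3
  rw [algebraicIndependent_iff] at h4
  have h5 := h4 (rename ![some 0, some 1, none] G.P) (by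
    rw [aeval_rename]
    have e2 : (fun o : Option (Fin 2) => o.elim (G.x 2) ![G.x 0, G.x 1]) ∘
        ![some 0, some 1, none] = G.x := by
      ext i
      fin_cases i <;> rfl
    rw [e2, G.hx])
  rw [map_eq_zero_iff _ (rename_injective _ (by decide))] at h5
  exact G.hP.ne_zero h5

end

theorem mainA (h1 : S_der) (h2 : S_noexp2) (h3 : S_degen) (h4 : S_deg) (h5 : S_gp)
    (h6 : S_zeroF) : S_mainA := by
  intro E _ _ G d J γ hT0 hT2 hadd hy0 hR hγ
  have hP2 := root_two hR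
  have hi := ind2 G hP2
  have hx2 := x2_alg G hP2
  obtain ⟨K, hK⟩ : ∃ K : IntermediateField ℂ E, K = (algebraicClosure
    (IntermediateField.adjoin ℂ {G.x 0, G.x 1}) E).restrictScalars ℂ := ⟨_, rfl⟩
  have mK : ∀ f : E, f ∈ K ↔ Al {G.x 0, G.x 1} f := by
    intro f
    rw [hK, IntermediateField.mem_restrictScalars, mem_algebraicClosure_iff]
  have cK : ∀ f : E, IsAlgebraic K f → f ∈ K := by
    intro f hf
    rw [mK]
    subst hK
    have hf' : IsAlgebraic (algebraicClosure (IntermediateField.adjoin ℂ {G.x 0, G.x 1}) E) f := hf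
    exact hf'.restrictScalars (IntermediateField.adjoin ℂ {G.x 0, G.x 1})
  have hAK : IntermediateField.adjoin ℂ {G.x 0, G.x 1} ≤ K := by
    intro f hf
    rw [mK]
    exact isAlgebraic_algebraMap (⟨f, hf⟩ : IntermediateField.adjoin ℂ {G.x 0, G.x 1})
  have k0 : G.x 0 ∈ K := hAK (IntermediateField.subset_adjoin ℂ _ (by simp))
  have k1 : G.x 1 ∈ K := hAK (IntermediateField.subset_adjoin ℂ _ (by simp))
  have k2 : G.x 2 ∈ K := (mK _).2 hx2
  have hxK : IntermediateField.adjoin ℂ (Set.range G.x) ≤ K := by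
    rw [IntermediateField.adjoin_le_iff]
    rintro _ ⟨i, rfl⟩
    fin_cases i
    · exact k0
    · exact k1
    · exact k2
  have ky : G.y 0 ∈ K := cK _ (alg_mono hxK (not_not.1 hT0))
  -- the derivation
  have hind : AlgebraicIndependent ℂ ![(⟨G.x 0, k0⟩ : K), ⟨G.x 1, k1⟩] := by
    rw [← AlgHom.algebraicIndependent_iff K.val K.val.injective]
    have e : (K.val ∘ ![(⟨G.x 0, k0⟩ : K), ⟨G.x 1, k1⟩]) = ![G.x 0, G.x 1] := by
      ext i
      fin_cases i <;> rfl
    rw [e]
    exact hi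
  have halg : ∀ f : K, Al {(⟨G.x 0, k0⟩ : K), ⟨G.x 1, k1⟩} f := by
    intro f
    rw [← al_map K.val]
    have e : K.val '' {(⟨G.x 0, k0⟩ : K), ⟨G.x 1, k1⟩} = {G.x 0, G.x 1} := by
      rw [Set.image_pair]
      rfl
    rw [e]
    exact (mK _).1 f.2
  have hy0' : (⟨G.y 0, ky⟩ : K) ≠ 0 := by
    intro h
    exact G.hy 0 (congrArg Subtype.val h)
  obtain ⟨D, hD1, hD2⟩ := h1 K _ _ _ hind halg hy0'
  let S : Sl K := ⟨⟨G.x 0, k0⟩, ⟨G.x 1, k1⟩, ⟨G.x 2, k2⟩, ⟨G.y 0, ky⟩, hind, halg, hy0', D, hD1, hD2⟩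
  by_cases hdeg : S.D S.z = 0 ∧ S.D S.v = 0
  · obtain ⟨a1, a2⟩ := h3 K S hdeg.1 hdeg.2
    rw [← al_map K.val, Set.image_singleton] at a1 a2
    exact h4 E G hT2 hadd hy0 a1 a2
  have hnoexp := h2 K S (by
    intro m₁ m₂ hm c hc
    have h7 := hadd ![m₁, 0, m₂] (by
      intro h0
      rcases hm with hm | hm
      · exact hm (congrFun h0 0)
      · exact hm (congrFun h0 2)) c
    apply h7
    rw [← G.hx]
    have h8 : (m₁ : E) * G.x 0 + m₂ * G.x 2 = algebraMap ℂ E c := by
      have := congrArg Subtype.val hc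
      exact this
    simp only [Fin.sum_univ_three, map_sub, map_add, map_mul, aeval_C, aeval_X]
    show algebraMap ℂ E ((m₁ : ℤ) : ℂ) * G.x 0 + algebraMap ℂ E (((0 : ℤ)) : ℂ) * G.x 1 +
      algebraMap ℂ E ((m₂ : ℤ) : ℂ) * G.x 2 - algebraMap ℂ E c = 0
    rw [← h8]
    simp) hdeg
  -- the plane curve
  obtain ⟨N, c, Q, hQ, hN, hNe, hgp⟩ := h5 E K (Fin 4) ![G.x 0, G.x 1, G.x 2, G.y 0] (G.y 1) (G.y 2)
    (by
      intro s
      fin_cases s
      · exact k0
      · exact k1
      · exact k2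
      · exact ky) (G.hy 1)
    (by
      intro h
      have h7 := cK _ h
      rw [mK] at h7
      apply hT2
      refine alg_mono ?_ h7
      rw [IntermediateField.adjoin_le_iff]
      intro f hf
      apply IntermediateField.subset_adjoin
      rcases hf with rfl | hf
      · exact ⟨0, rfl⟩
      · rw [Set.mem_singleton_iff] at hf
        rw [hf]
        exact ⟨1, rfl⟩)
    (by
      have h7 := G.tr1 (G.y 2) (G.y 1) hT2
      have h8 : IntermediateField.adjoin ℂ (insert (G.y 2) (Set.range G.x)) ≤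
          (IntermediateField.adjoin K {G.y 2}).restrictScalars ℂ := by
        rw [IntermediateField.adjoin_le_iff]
        intro f hf
        rw [SetLike.mem_coe, IntermediateField.mem_restrictScalars]
        rcases hf with rfl | ⟨i, rfl⟩
        · exact IntermediateField.subset_adjoin _ _ rfl
        · have h9 : G.x i ∈ K := hxK (IntermediateField.subset_adjoin ℂ _ ⟨i, rfl⟩)
          exact IntermediateField.algebraMap_mem _ (⟨G.x i, h9⟩ : K)
      exact alg_mono h8 h7)
  classical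
  obtain ⟨z, t, v, q, hpt, hsum⟩ := h6 K S G.P d J γ G.hP (by
      have e : (K.val ∘ ![S.z, S.t, S.v]) = G.x := by
        ext i
        fin_cases i <;> rfl
      have h7 : K.val (aeval ![S.z, S.t, S.v] G.P) = 0 := by
        rw [comp_aeval_apply]
        have h8 := (G.hx G.P).2 dvd_rfl
        rw [← e] at h8
        exact h8
      exact (map_eq_zero_iff K.val K.val.injective).1 h7) hR
    (by
      rcases hγ with h | h
      · exact Or.inr ⟨h, hnoexp⟩
      · exact Or.inl h) N (fun e => if h : c e ∈ K then ⟨c e, h⟩ else 0)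
    (Finset.subtype (· ∈ K) Q)
    (by
      intro e he
      obtain ⟨h7, h8⟩ := hN e he
      have h9 := hQ _ h8
      simp only [dif_pos h9]
      refine ⟨fun h => h7 (congrArg Subtype.val h), ?_⟩
      rw [Finset.mem_subtype]
      exact h8) hNe
  have hfin := hgp Q ![z, t, v, Complex.exp z] (fun k => if h : k ∈ K then q ⟨k, h⟩ else 0)
    (Complex.exp t) (Complex.exp v) subset_rfl (by
      rw [← pt_val K.val] at hpt
      let ρ : Fin 4 ⊕ Q → Fin 4 ⊕ (Finset.subtype (· ∈ K) Q) :=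
        Sum.map id (fun k : Q => ⟨⟨k.1, hQ _ k.2⟩, by rw [Finset.mem_subtype]; exact k.2⟩)
      have h7 := pt_comp ρ hpt
      have e1 : (Sum.elim ![z, t, v, Complex.exp z]
          fun k : (Finset.subtype (· ∈ K) Q) => q k) ∘ ρ = Sum.elim ![z, t, v, Complex.exp z]
          (fun k : Q => if h : (k : E) ∈ K then q ⟨k, h⟩ else 0) := by
        funext o
        rcases o with i | k
        · rfl
        · simp only [Sum.elim_inr]
          rw [dif_pos (hQ _ k.2)]
          rfl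
      have e2 : (K.val ∘ (Sum.elim ![S.z, S.t, S.v, S.y]
          fun k : (Finset.subtype (· ∈ K) Q) => (k : K))) ∘ ρ =
          Sum.elim ![G.x 0, G.x 1, G.x 2, G.y 0] (fun k : Q => (k : E)) := by
        funext o
        rcases o with i | k
        · fin_cases i <;> rfl
        · rfl
      rw [e1, e2] at h7
      exact h7)
    (by
      rw [← hsum]
      refine Finset.sum_congr rfl fun e he => ?_
      have h9 := hQ _ (hN e he).2
      simp only [dif_pos h9])
  refine ⟨![z, t, v], ?_⟩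
  have h7 := pt_comp (fun o : Fin 3 ⊕ Fin 3 => (o.elim ![Sum.inl 0, Sum.inl 1, Sum.inl 2]
    ![Sum.inl 3, Sum.inr 0, Sum.inr 1] : Fin 4 ⊕ Fin 2)) hfin
  have e1 : Sum.elim ![z, t, v, Complex.exp z] ![Complex.exp t, Complex.exp v] ∘
      (fun o : Fin 3 ⊕ Fin 3 => (o.elim ![Sum.inl 0, Sum.inl 1, Sum.inl 2]
    ![Sum.inl 3, Sum.inr 0, Sum.inr 1] : Fin 4 ⊕ Fin 2)) =
      Sum.elim ![z, t, v] (fun i => Complex.exp (![z, t, v] i)) := by
    funext o
    rcases o with i | i <;> fin_cases i <;> rfl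
  have e2 : Sum.elim ![G.x 0, G.x 1, G.x 2, G.y 0] ![G.y 1, G.y 2] ∘
      (fun o : Fin 3 ⊕ Fin 3 => (o.elim ![Sum.inl 0, Sum.inl 1, Sum.inl 2]
    ![Sum.inl 3, Sum.inr 0, Sum.inr 1] : Fin 4 ⊕ Fin 2)) = Sum.elim G.x G.y := by
    funext o
    rcases o with i | i <;> fin_cases i <;> rfl
  rw [e1, e2] at h7
  exact h7

end Pool.Agent.H287.EX
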